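import Pool.Agent.RAC.Defs

set_option autoImplicit false

open MeasureTheory

namespace Pool.Agent.VAC90

open Pool.Agent.TS Pool.Agent.TR Pool.Agent.ACC Pool.Agent.RAC

theorem rac_nonvac (κ : ℕ) (ε c : ℝ) (hc : 0 < c) (s : ℕ) (φ : ℝ) (hs : 16 ≤ s) (hφ : 16 ≤ φ)
    (n : ℕ) (δ : Fin n → ℕ) (h1 : 2 * n + ∑ v, δ v = 2 * s)
    (h : ∀ (Q A Γ Ω : Type) [Fintype Q] [Fintype A] [Fintype Γ] [MeasurableSpace Ω]
        (μ : Measure Ω) [IsProbabilityMeasure μ] (M : RMachine n Q A Γ Ω) (g : ℕ) (f : A → ℝ)
        (b : Bool) (T : ℝ), 1 ≤ g → Fintype.card Q ≤ s ^ κ → Fintype.card A ≤ s ^ κ →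
        Fintype.card Γ ≤ s ^ (κ * g) → (∀ a, 0 ≤ f a) →
        (Nat.card {a : A // f a < φ * g} : ℝ) * g ≤ (s : ℝ) ^ (1 - ε) →
        M.DetectsTriangles μ δ → M.ExpectedCostLE μ δ f b T →
        c * s * (min (Real.log s) (Real.log φ) / Real.log (min (Real.log s) (Real.log φ))) ≤ T) :
    (∃ G : SimpleGraph (Fin n), HasDegrees G δ ∧ G.CliqueFree 3) ∧
    (∃ G : SimpleGraph (Fin n), HasDegrees G δ ∧ ¬ G.CliqueFree 3) := by
  have hn : 0 < n := by
    rcases Nat.eq_zero_or_pos n with h0 | h0
    · subst h0
      simp at h1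
      omega
    · exact h0
  let M : Bool → RMachine n Unit Empty Unit Unit := fun S =>
    { start := fun _ => (), init := fun _ a => a.elim, rd := fun _ _ _ => none,
      ask := fun _ _ _ _ => Query.entry ⟨0, hn⟩ 0, next := fun _ _ _ _ _ => ((), none),
      output := fun _ => some S }
  have key : ∀ S : Bool, ¬ (M S).DetectsTriangles (Measure.dirac ()) δ := by
    intro S hS
    have h2 := h Unit Empty Unit Unit (Measure.dirac ()) (M S) 1 (fun a => a.elim) false 0 le_rfl
      (by simpa using Nat.one_le_pow _ _ (by omega))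
      (by simp) (by simpa using Nat.one_le_pow _ _ (by omega)) (fun a => a.elim) 
      (by simp; positivity) hS
      (by
        intro G hG m
        have : ∀ ω, (M S).cost (fun a => a.elim) false ω G m = 0 := by
          intro ω
          unfold RMachine.cost
          apply Finset.sum_eq_zero
          intro t _
          simp [RMachine.out, RMachine.access, M]
        simp [this])
    have h3 : 16 ≤ (s:ℝ) := by exact_mod_cast hs
    have hlog : (1:ℝ) < Real.log 16 := by
      have : Real.exp 1 < 16 := by
        have := Real.exp_one_lt_d9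
        linarith
      rw [Real.lt_log_iff_exp_lt (by norm_num)]
      exact this
    have h5 : 1 < min (Real.log s) (Real.log φ) := 
      lt_min (lt_of_lt_of_le hlog (Real.log_le_log (by norm_num) h3))
        (lt_of_lt_of_le hlog (Real.log_le_log (by norm_num) hφ))
    have h6 : (0:ℝ) < s := by linarith
    have h8 := Real.log_pos h5
    have h9 : 0 < min (Real.log s) (Real.log φ) := by linarith
    have h7 : 0 < c * s * (min (Real.log s) (Real.log φ) / Real.log (min (Real.log s) (Real.log φ))) := by positivity
    linarith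
  have main : ∀ S : Bool, (∀ G : SimpleGraph (Fin n), HasDegrees G δ → (S = true ↔ ¬ G.CliqueFree 3)) → False := by
    intro S hS
    apply key S
    intro G hG
    refine ⟨fun t x => ?_, fun b t y => ?_, ?_⟩
    · trivial
    · trivial
    · have : {ω : Unit | ∃ t b, (M S).out ω G t = some b ∧ (b = true ↔ ¬ G.CliqueFree 3)} = Set.univ := by
        ext ω
        simp only [Set.mem_ofPred_eq, Set.mem_univ, iff_true]
        exact ⟨0, S, rfl, hS G hG⟩
      rw [this]
      simp
      norm_num
  constructor
  · by_contra hcon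
    push Not at hcon
    exact main true (fun G hG => by simpa using hcon G hG)
  · by_contra hcon
    push Not at hcon
    exact main false (fun G hG => by simpa using hcon G hG)

end Pool.Agent.VAC90
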