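import Pool.Agent.ACC.Defs

set_option autoImplicit false

namespace Pool.Agent.VAC90

open Pool.Agent.TS Pool.Agent.ACC

theorem acc_nonvac (κ : ℕ) (ε c : ℝ) (hc : 0 < c) (s : ℕ) (hs : 3 ≤ s) (n : ℕ) (δ : Fin n → ℕ)
    (h1 : 2 * n + ∑ v, δ v = 2 * s)
    (h : ∀ (Q A Γ : Type) [Fintype Q] [Fintype A] [Fintype Γ] (M : ACC.Machine n Q A Γ) (g : ℕ)
        (f : A → ℝ) (φ T : ℝ), 1 ≤ g → (Fintype.card Q : ℝ) ≤ 2 ^ ((s : ℝ) ^ (1 - ε)) →
        Fintype.card A ≤ s ^ κ → Fintype.card Γ ≤ s ^ (κ * g) → (∀ a, 0 ≤ f a) → 0 < φ →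
        (Nat.card {a : A // f a < φ * g} : ℝ) * g ≤ (s : ℝ) ^ (1 - ε) →
        M.Recognises f T δ → c * s * min (Real.log s) (Real.log φ) ≤ T) :
    (∃ G : SimpleGraph (Fin n), (∀ v, (adjList G v).length = δ v) ∧ G.CliqueFree 3) ∧
    (∃ G : SimpleGraph (Fin n), (∀ v, (adjList G v).length = δ v) ∧ ¬ G.CliqueFree 3) := by
  have hn : 0 < n := by
    rcases Nat.eq_zero_or_pos n with h0 | h0
    · subst h0
      simp at h1
      omega
    · exact h0
  let M : Set Unit → ACC.Machine n Unit Empty Unit := fun S =>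
    { start := Set.univ, init := fun a => a.elim, rd := fun _ _ => none,
      ask := fun _ _ _ => Query.entry ⟨0, hn⟩ 0, next := fun _ _ _ _ => Set.univ, acc := S }
  have key : ∀ S : Set Unit, ¬ (M S).Recognises (fun a => a.elim) 0 δ := by
    intro S hS
    have h2 := h Unit Empty Unit (M S) 1 (fun a => a.elim) 3 0 le_rfl
      (by simp only [Fintype.card_unit, Nat.cast_one]
          exact Real.one_le_rpow (by norm_num) (by positivity))
      (by simp) (by simpa using Nat.one_le_pow _ _ (by omega)) (fun a => a.elim) (by norm_num)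
      (by simp; positivity) hS
    have h3 : 0 < Real.log s := Real.log_pos (by exact_mod_cast (by omega : 1 < s))
    have h4 : (0:ℝ) < Real.log 3 := Real.log_pos (by norm_num)
    have h5 : 0 < min (Real.log s) (Real.log 3) := lt_min h3 h4
    have h6 : (0:ℝ) < s := by exact_mod_cast (by omega : 0 < s)
    have h7 : 0 < c * s * min (Real.log s) (Real.log 3) := by positivity
    linarith
  constructor
  · by_contra hcon
    push Not at hcon
    apply key ∅
    intro G hG
    refine ⟨fun hf => absurd hf (hcon G hG), ?_⟩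
    rintro - ⟨t, q, c', w, -, h'⟩
    exact h'
  · by_contra hcon
    push Not at hcon
    apply key Set.univ
    intro G hG
    refine ⟨fun hf => ⟨0, fun _ => (), fun _ a => a.elim, fun _ => none, ?_, trivial, ?_⟩, fun hf => absurd (hcon G hG) hf⟩
    · refine ⟨trivial, ?_, fun i hi => absurd hi (by omega)⟩
      rfl
    · simp [ACC.Machine.cost]

end Pool.Agent.VAC90
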