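import Pool.Agent.HYB.Model

set_option autoImplicit false

open MeasureTheory

namespace Pool.Agent.VAC90

open Pool.Agent.HYB

open Classical in
/-- The machine: every vertex sends the list of its neighbours in one pass. -/
noncomputable def tri (n b : ℕ) : HYB.Machine n n b (Finset (Fin n) × Bool) where
  start := fun _ N => (N, false)
  send := fun _ q _ => fun i => decide (i ∈ q.1)
  write := fun _ _ _ => ⊥
  step := fun _ q msg _ _ => (q.1, decide (∃ w i, i ∈ q.1 ∧ w ∈ q.1 ∧ msg w i = true))
  decide := fun r q => if r = 0 then none else some q.2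

theorem tri_state (n b : ℕ) (H : Net n) (G : SimpleGraph (Fin n)) (u : Fin n) :
    decision (tri n b) H G 1 u = some true ↔ ∃ w i, G.Adj u i ∧ G.Adj u w ∧ G.Adj w i := by
  classical
  unfold decision
  simp only [tri, one_ne_zero, if_false, Option.some.injEq]
  simp only [state, decide_eq_true_eq, nbr, Finset.mem_filter, Finset.mem_univ, true_and]
  constructor
  · rintro ⟨w, i, h1, h2, h3⟩
    rw [if_pos h2.symm] at h3
    simp at h3
    exact ⟨w, i, h1, h2, h3⟩
  · rintro ⟨w, i, h1, h2, h3⟩
    refine ⟨w, i, h1, h2, ?_⟩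
    rw [if_pos h2.symm]
    simpa using h3

theorem tri_correct (n b : ℕ) (hn : 0 < n) (H : Net n) (G : SimpleGraph (Fin n)) :
    Correct (tri n b) H G := by
  classical
  refine ⟨1, ?_, ?_, ?_⟩
  · intro u
    simp [decision, tri]
  · intro r hr
    obtain rfl : r = 0 := by omega
    exact ⟨⟨0, hn⟩, by simp [decision, tri]⟩
  · simp only [tri_state]
    constructor
    · rintro ⟨u, w, i, h1, h2, h3⟩ hf
      exact hf {u, w, i} (by
        rw [SimpleGraph.is3Clique_triple_iff]
        exact ⟨h2, h1, h3⟩)
    · intro h
      unfold SimpleGraph.CliqueFree at h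
      push Not at h
      obtain ⟨t, ht⟩ := h
      rw [SimpleGraph.is3Clique_iff] at ht
      obtain ⟨a, b', c, hab, hac, hbc, -⟩ := ht
      exact ⟨a, b', c, hac, hab, hbc⟩

/-- the hypotheses of HybridMachine are satisfied by a real machine for `B = n`, `J = 0`,
`T = 2 n`, every network. -/
theorem hyb_sat (n b : ℕ) (hn : 0 < n) (H : Net n) :
    DetectsTriangles (Measure.dirac ()) (fun _ : Unit => tri n b) H ∧
    ExpectedTimeLE (Measure.dirac ()) (fun _ : Unit => tri n b) H (2 * n) ∧
    ExpectedChangesLE (Measure.dirac ()) (fun _ : Unit => tri n b) H 0 := by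
  classical
  refine ⟨?_, ?_, ?_⟩
  · intro G hG
    refine ⟨fun r u x => trivial, fun r a x => trivial, ?_⟩
    have : {ω : Unit | Correct (tri n b) H G} = Set.univ := by
      ext ω
      simp [tri_correct n b hn H G]
    rw [this]
    simp
    rw [ENNReal.div_le_iff (by simp) (by simp)]
    norm_num
  · intro G hG m
    have h1 : ∀ r ∈ Finset.range m, ((Measure.dirac ()) {ω : Unit | Running (tri n b) H G r}).toReal ≤ if r = 0 then (1:ℝ) else 0 := by
      intro r _
      by_cases h : r = 0
      · rw [if_pos h]
        exact ENNReal.toReal_mono (b := 1) (by simp) prob_le_one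
      · rw [if_neg h]
        have : {ω : Unit | Running (tri n b) H G r} = ∅ := by
          ext ω
          simp only [Set.mem_ofPred_eq, Set.mem_empty_iff_false, iff_false]
          intro hr
          obtain ⟨u, hu⟩ := hr 1 (by omega)
          simp [decision, tri] at hu
        simp [this]
    have h2 := Finset.sum_le_sum h1
    have h3 : ∑ r ∈ Finset.range m, (if r = 0 then (1:ℝ) else 0) ≤ 1 := by
      rw [Finset.sum_ite_eq']
      split_ifs <;> norm_num
    have h4 : (G.edgeSet.ncard : ℝ) ≤ n := by exact_mod_cast hG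
    have h5 : 0 ≤ ∑ r ∈ Finset.range m, ((Measure.dirac ()) {ω : Unit | Running (tri n b) H G r}).toReal :=
      Finset.sum_nonneg (fun _ _ => ENNReal.toReal_nonneg)
    calc _ ≤ ((n:ℝ) + n) * 1 := by
          apply mul_le_mul (by linarith) (h2.trans h3) h5 (by positivity)
      _ = 2 * n := by ring
  · intro G hG m
    apply le_of_eq
    apply Finset.sum_eq_zero
    intro r _
    apply Finset.sum_eq_zero
    intro a _
    have : {ω : Unit | Running (tri n b) H G r ∧ mem (tri n b) H G r a ≠ ⊥} = ∅ := by
      ext ω
      simp only [Set.mem_ofPred_eq, Set.mem_empty_iff_false, iff_false, not_and, not_not]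
      intro _
      simp [mem, tri]
    simp [this]

end Pool.Agent.VAC90
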